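import Mathlib

/-! Abelian varieties over the algebraic numbers, given by their complex uniformisation, and the
period vectors of their first algebraic de Rham cohomology. -/

open MvPolynomial

namespace GPC73

/-- The field of algebraic numbers in `ℂ`. -/
abbrev Qb : Type := algebraicClosure ℚ ℂ

variable {g N : ℕ}

/-- The function `p(θ₀(z), …, θ_N(z))`. -/
noncomputable def val (θ : Fin (N + 1) → (Fin g → ℂ) → ℂ) (p : MvPolynomial (Fin (N + 1)) Qb)
    (z : Fin g → ℂ) : ℂ := aeval (fun i => θ i z) p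

/-- The derivative `∂ f / ∂ z_j`. -/
noncomputable def pd (j : Fin g) (f : (Fin g → ℂ) → ℂ) (z : Fin g → ℂ) : ℂ :=
  fderiv ℂ f z (Pi.single j 1)

/-- `u / v = p(θ) / q(θ)` for forms `p`, `q` of the same degree with algebraic coefficients. -/
def IsRat (θ : Fin (N + 1) → (Fin g → ℂ) → ℂ) (u v : (Fin g → ℂ) → ℂ) : Prop :=
  ∃ (d : ℕ) (p q : MvPolynomial (Fin (N + 1)) Qb), p.IsHomogeneous d ∧ q.IsHomogeneous d ∧
    (∃ z, val θ q z ≠ 0) ∧ ∀ z, val θ q z * u z = val θ p z * v z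

/-- An abelian variety `A ⊆ ℙ^N` of dimension `g` over the algebraic numbers, with its
uniformisation `(θ₀ : … : θ_N) : ℂ^g / Λ ≅ A(ℂ)` by theta functions; the coordinates of `ℂ^g` come
from a basis of the Lie algebra over the algebraic numbers. -/
structure AbVar (g N : ℕ) where
  ω : Module.Basis (Fin (2 * g)) ℝ (Fin g → ℂ)
  θ : Fin (N + 1) → (Fin g → ℂ) → ℂ
  a : Fin (2 * g) → (Fin g → ℂ) →L[ℂ] ℂ
  b : Fin (2 * g) → ℂ
  hol : ∀ i, AnalyticOnNhd ℂ (θ i) Set.univ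
  aut : ∀ i j z, θ i (z + ω j) = Complex.exp (a j z + b j) * θ i z
  ne : ∀ z, ∃ i, θ i z ≠ 0
  inj : ∀ (z w : Fin g → ℂ) (c : ℂ), (∀ i, θ i w = c * θ i z) →
    ∃ n : Fin (2 * g) → ℤ, w = z + ∑ j, n j • ω j
  imm : ∀ (z v : Fin g → ℂ) (c : ℂ), (∀ i, fderiv ℂ (θ i) z v = c * θ i z) → v = 0
  alg : ∃ S : Set (MvPolynomial (Fin (N + 1)) Qb), (∀ p ∈ S, ∃ d, p.IsHomogeneous d) ∧
    ∀ x : Fin (N + 1) → ℂ, x ≠ 0 →
      ((∀ p ∈ S, aeval x p = 0) ↔ ∃ (z : Fin g → ℂ) (c : ℂ), ∀ i, x i = c * θ i z)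
  der : ∀ i k j, IsRat θ (θ k * pd j (θ i) - θ i * pd j (θ k)) (θ k ^ 2)

namespace AbVar

variable (A : AbVar g N)

/-- The period `∑ n_j ω_j`. -/
noncomputable def per (n : Fin (2 * g) → ℤ) : Fin g → ℂ := ∑ j, n j • A.ω j

/-- The period vectors `(∫_{ω_j} dF)_j` of the closed rational differentials of the second kind
`dF` over the algebraic numbers, `F = H / β(θ)`. -/
def dR : Set (Fin (2 * g) → ℂ) :=
  {η | ∃ (H : (Fin g → ℂ) → ℂ) (d : ℕ) (β : MvPolynomial (Fin (N + 1)) Qb),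
    AnalyticOnNhd ℂ H Set.univ ∧ β.IsHomogeneous d ∧ (∃ z, val A.θ β z ≠ 0) ∧
    (∀ j, IsRat A.θ (val A.θ β * pd j H - H * pd j (val A.θ β)) (val A.θ β ^ 2)) ∧
    ∀ j z, H (z + A.ω j) * val A.θ β z = (H z + η j * val A.θ β z) * val A.θ β (z + A.ω j)}

/-- `U` is the Lie algebra of a subtorus: it is spanned over `ℝ` by the periods it contains. -/
def IsSub (U : Submodule ℂ (Fin g → ℂ)) : Prop :=
  ∀ u ∈ U, u ∈ Submodule.span ℝ {x | x ∈ U ∧ ∃ n, x = A.per n}

/-- The rational linear forms on the period lattice that vanish on the periods in `U`. -/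
def ann (U : Submodule ℂ (Fin g → ℂ)) : Submodule ℚ (Fin (2 * g) → ℚ) where
  carrier := {v | ∀ n, A.per n ∈ U → ∑ j, (n j : ℚ) * v j = 0}
  add_mem' := fun {u v} hu hv n hn => by
    simp only [Pi.add_apply, mul_add, Finset.sum_add_distrib, hu n hn, hv n hn, add_zero]
  zero_mem' := fun n _ => by simp
  smul_mem' := fun c v hv n hn => by
    have := congrArg (c * ·) (hv n hn)
    simpa [Finset.mul_sum, mul_left_comm] using this

end AbVar

end GPC73
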