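import Pool.Agent.MP_57341d_ag.H73.Defs

section

/-! Matrices with algebraic entries. -/

open Matrix Module

namespace GPC73

variable {n : Type} [Fintype n] [DecidableEq n]

/-- Matrices with algebraic entries. -/
def Al {m m' : Type} (M : Matrix m m' ℂ) : Prop := ∀ i j, IsAlgebraic ℚ (M i j)

section

variable {m m' m'' : Type} {M M' : Matrix m m' ℂ}

theorem Al.add (h : Al M) (h' : Al M') : Al (M + M') := fun i j => by
  rw [Matrix.add_apply]; exact (h i j).add (h' i j)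

theorem Al.sub (h : Al M) (h' : Al M') : Al (M - M') := fun i j => by
  rw [Matrix.sub_apply]; exact (h i j).sub (h' i j)

theorem Al.smul {c : ℂ} (hc : IsAlgebraic ℚ c) (h : Al M) : Al (c • M) := fun i j => by
  rw [Matrix.smul_apply, smul_eq_mul]; exact hc.mul (h i j)

theorem al_isAlg_sum {ι : Type} (s : Finset ι) {f : ι → ℂ} (h : ∀ i, IsAlgebraic ℚ (f i)) :
    IsAlgebraic ℚ (∑ i ∈ s, f i) := by
  classical
  induction s using Finset.induction_on with
  | empty => simpa using isAlgebraic_zero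
  | insert a s ha ih => rw [Finset.sum_insert ha]; exact (h a).add ih

theorem Al.mul [Fintype m'] {M' : Matrix m' m'' ℂ} (h : Al M) (h' : Al M') : Al (M * M') :=
  fun i j => by
    rw [Matrix.mul_apply]; exact al_isAlg_sum _ fun l => (h i l).mul (h' l j)

theorem Al.transpose (h : Al M) : Al Mᵀ := fun i j => h j i

theorem al_rat (M : Matrix m m' ℚ) : Al (M.map (Rat.cast : ℚ → ℂ)) := fun i j => by
  rw [Matrix.map_apply]; exact isAlgebraic_algebraMap (M i j)

theorem al_one : Al (1 : Matrix n n ℂ) := fun i j => by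
  rw [Matrix.one_apply]
  split_ifs
  · exact isAlgebraic_one
  · exact isAlgebraic_zero

theorem al_sum {ι : Type} (s : Finset ι) {M : ι → Matrix m m' ℂ} (h : ∀ i, Al (M i)) :
    Al (∑ i ∈ s, M i) := fun a b => by
  rw [Matrix.sum_apply]; exact al_isAlg_sum _ fun i => h i a b

/-- Lift to a matrix over `Qb`; `Matrix.inv_def`, `RingHom.map_adjugate`, `RingHom.map_det`. -/
theorem Al.inv {M : Matrix n n ℂ} (h : Al M) : Al M⁻¹ := by
  let M' : Matrix n n Qb := fun i j => ⟨M i j, (mem_algebraicClosure_iff).2 (h i j)⟩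
  have hM : M = (algebraMap Qb ℂ).mapMatrix M' := by
    ext i j; rfl
  have hq : ∀ x : Qb, IsAlgebraic ℚ (algebraMap Qb ℂ x) := fun x =>
    (mem_algebraicClosure_iff).1 x.2
  rw [Matrix.inv_def, hM, ← RingHom.map_adjugate, ← RingHom.map_det, Ring.inverse_eq_inv']
  refine Al.smul (hq _).inv fun i j => ?_
  exact hq _

/-- Expand the entries in `Module.Basis.ofVectorSpace ℚ Qb`: an algebraic matrix commuting with
rational matrices is an algebraic combination of rational matrices commuting with them. -/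
theorem al_comm {ι : Type} (X : ι → Matrix n n ℚ) {ψ : Matrix n n ℂ} (h : Al ψ)
    (hc : ∀ s, ψ * (X s).map (Rat.cast : ℚ → ℂ) = (X s).map (Rat.cast : ℚ → ℂ) * ψ) :
    ∃ (κ : Type) (t : Finset κ) (β : κ → ℂ) (φ : κ → Matrix n n ℚ), (∀ k, IsAlgebraic ℚ (β k)) ∧
      (∀ k s, φ k * X s = X s * φ k) ∧ ψ = ∑ k ∈ t, β k • (φ k).map (Rat.cast : ℚ → ℂ) := by
  classical
  let b := Module.Basis.ofVectorSpace ℚ Qb
  let ψ' : Matrix n n Qb := fun i j => ⟨ψ i j, (mem_algebraicClosure_iff).2 (h i j)⟩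
  refine ⟨Module.Basis.ofVectorSpaceIndex ℚ Qb,
    Finset.univ.biUnion (fun p : n × n => (b.repr (ψ' p.1 p.2)).support),
    fun k => (b k : ℂ), fun k i j => b.repr (ψ' i j) k,
    fun k => (mem_algebraicClosure_iff).1 (b k).2, fun k s => ?_, ?_⟩
  · ext i j
    have e : ∑ l, X s l j • ψ' i l = ∑ l, X s i l • ψ' l j := by
      apply Subtype.ext
      have := congrFun (congrFun (hc s) i) j
      simp only [Matrix.mul_apply, Matrix.map_apply] at this
      push_cast
      simp only [ψ', Rat.smul_def]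
      rw [← this]
      exact Finset.sum_congr rfl fun l _ => mul_comm _ _
    have e2 := congrArg (fun x => b.repr x k) e
    simp only [map_sum, map_smul, Finsupp.finsetSum_apply, Finsupp.smul_apply, smul_eq_mul] at e2
    simp only [Matrix.mul_apply]
    rw [← e2]
    exact Finset.sum_congr rfl fun l _ => mul_comm _ _
  · ext i j
    have e : ψ' i j = ∑ k ∈ Finset.univ.biUnion (fun p : n × n => (b.repr (ψ' p.1 p.2)).support),
        b.repr (ψ' i j) k • b k := by
      conv_lhs => rw [← b.linearCombination_repr (ψ' i j)]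
      rw [Finsupp.linearCombination_apply, Finsupp.sum]
      refine Finset.sum_subset (fun k hk => ?_) fun k _ hk => ?_
      · exact Finset.mem_biUnion.2 ⟨(i, j), Finset.mem_univ _, hk⟩
      · rw [Finsupp.notMem_support_iff.1 hk, zero_smul]
    have e2 := congrArg (fun x : Qb => (x : ℂ)) e
    simp only [Matrix.sum_apply, Matrix.smul_apply, Matrix.map_apply, smul_eq_mul]
    refine e2.trans ?_
    push_cast
    refine Finset.sum_congr rfl fun k _ => ?_
    simp only [Rat.smul_def]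
    exact mul_comm _ _

end

end GPC73

end

section

/-! Weights and diagonal periods. -/

open Matrix Module Complex

namespace GPC73

/-- Polarised Hodge structure of weight one with a period matrix. -/
structure HD (n : Type) [Fintype n] [DecidableEq n] where
  J : Matrix n n ℝ
  E : Matrix n n ℚ
  P : Matrix n n ℂ
  c : ℂ
  JJ : J * J = -1
  E_det : E.det ≠ 0
  skew : J * E.map (Rat.cast : ℚ → ℝ) + E.map (Rat.cast : ℚ → ℝ) * Jᵀ = 0
  P_det : P.det ≠ 0
  c_ne : c ≠ 0
  H1 : ∀ φ : Matrix n n ℚ, φ.map (Rat.cast : ℚ → ℝ) * J = J * φ.map (Rat.cast : ℚ → ℝ) →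
    Al (P⁻¹ * φ.map (Rat.cast : ℚ → ℂ) * P)
  H2 : Al (P⁻¹ * (c • E.map (Rat.cast : ℚ → ℂ)) * P⁻¹ᵀ)

variable {n : Type} [Fintype n] [DecidableEq n]

/-- Three commuting algebraic complex structures whose commutant acts algebraically. -/
structure Fr (D : HD n) where
  T : Fin 3 → Matrix n n ℂ
  comm : ∀ s t, T s * T t = T t * T s
  sq : ∀ s, T s * T s = -1
  al : ∀ s, Al (T s)
  skew : ∀ s, T s * D.E.map (Rat.cast : ℚ → ℂ) + D.E.map (Rat.cast : ℚ → ℂ) * (T s)ᵀ = 0
  H : ∀ ψ, Al ψ → (∀ s, ψ * T s = T s * ψ) → Al (D.P⁻¹ * ψ * D.P)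

/-- The eigenvalues. -/
noncomputable def sg (b : Bool) : ℂ := if b then I else -I

/-- The projector on an eigenspace. -/
noncomputable def pr (T : Matrix n n ℂ) (b : Bool) : Matrix n n ℂ := (1 / 2 : ℂ) • (1 - sg b • T)

theorem fr_sg (b : Bool) : sg b * sg b = -1 := by
  cases b <;> simp [sg]

theorem fr_sg_not (b : Bool) : sg (!b) = -sg b := by
  cases b <;> simp [sg]

theorem fr_sg_al (b : Bool) : IsAlgebraic ℚ (sg b) := by
  have h : IsAlgebraic ℚ I := IsAlgebraic.of_pow two_pos (by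
    rw [I_sq]; exact isAlgebraic_one.neg)
  cases b
  · exact h.neg
  · exact h

theorem fr_T_pr {T : Matrix n n ℂ} (h : T * T = -1) (b : Bool) : T * pr T b = sg b • pr T b := by
  rw [pr, Matrix.mul_smul, Matrix.mul_sub, Matrix.mul_smul, h, smul_comm (sg b), smul_sub (sg b),
    smul_smul (sg b), fr_sg, Matrix.mul_one, smul_neg, neg_smul, one_smul, sub_neg_eq_add,
    sub_neg_eq_add, add_comm]

theorem fr_comm {T T' : Matrix n n ℂ} (h : Commute T T') (b : Bool) : Commute T (pr T' b) :=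
  ((Commute.one_right T).sub_right (h.smul_right _)).smul_right _

theorem fr_mul_pr {T M : Matrix n n ℂ} {b : Bool} (h : M * T = sg b • M) : M * pr T b = M := by
  rw [pr, Matrix.mul_smul, Matrix.mul_sub, Matrix.mul_smul, h, smul_smul, fr_sg, Matrix.mul_one,
    neg_smul, one_smul, sub_neg_eq_add, ← two_smul ℂ M, smul_smul]
  norm_num

omit [Fintype n] in
theorem fr_sum_pr (T : Matrix n n ℂ) : ∑ b, pr T b = 1 := by
  rw [Fintype.sum_bool, pr, pr, ← smul_add, show sg false = -sg true from fr_sg_not true,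
    neg_smul, sub_neg_eq_add, sub_add_add_cancel, ← two_smul ℂ (1 : Matrix n n ℂ), smul_smul]
  norm_num

theorem fr_pr_al {T : Matrix n n ℂ} (h : Al T) (b : Bool) : Al (pr T b) := by
  refine Al.smul ?_ (al_one.sub (Al.smul (fr_sg_al b) h))
  have := isAlgebraic_algebraMap (R := ℚ) (A := ℂ) (1 / 2)
  simpa using this

theorem fr_pr_E {T E : Matrix n n ℂ} (h : T * E + E * Tᵀ = 0) (b : Bool) :
    pr T b * E = E * (pr T (!b))ᵀ := by
  rw [pr, pr, transpose_smul, transpose_sub, transpose_smul, transpose_one, Matrix.smul_mul,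
    Matrix.mul_smul, Matrix.sub_mul, Matrix.mul_sub, Matrix.smul_mul, Matrix.mul_smul,
    Matrix.one_mul, Matrix.mul_one, eq_neg_of_add_eq_zero_left h, fr_sg_not, smul_neg, neg_smul]

omit [Fintype n] [DecidableEq n] in
theorem fr_ne {M : Matrix n n ℂ} (h : M ≠ 0) : ∃ i j, M i j ≠ 0 := by
  by_contra hc
  push Not at hc
  exact h (Matrix.ext hc)

theorem fr_single (A B : Matrix n n ℂ) (i k l j : n) :
    (A * (single k l 1 : Matrix n n ℂ) * B : Matrix n n ℂ) i j = A i k * B l j := by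
  rw [Matrix.mul_assoc, Matrix.mul_apply, Finset.sum_eq_single k]
  · rw [single_mul_apply_same, one_mul]
  · intro b _ hb
    rw [single_mul_apply_of_ne (h := hb), mul_zero]
  · intro h
    exact absurd (Finset.mem_univ _) h

omit [Fintype n] in
theorem fr_single_al (k l : n) : Al (single k l (1 : ℂ)) := fun i j => by
  rw [single_apply]
  split_ifs
  · exact isAlgebraic_one
  · exact isAlgebraic_zero

namespace Fr

variable {D : HD n} (F : Fr D)

/-- The projector on a weight space. -/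
noncomputable def e (w : Fin 3 → Bool) : Matrix n n ℂ :=
  pr (F.T 0) (w 0) * pr (F.T 1) (w 1) * pr (F.T 2) (w 2)

theorem T_e (s : Fin 3) (w : Fin 3 → Bool) : F.T s * F.e w = sg (w s) • F.e w := by
  have c : ∀ s t b, F.T s * pr (F.T t) b = pr (F.T t) b * F.T s := fun s t b =>
    fr_comm (F.comm s t) b
  unfold e
  fin_cases s
  · show F.T 0 * _ = sg (w 0) • _
    rw [← Matrix.mul_assoc, ← Matrix.mul_assoc, fr_T_pr (F.sq 0), Matrix.smul_mul, Matrix.smul_mul]
  · show F.T 1 * _ = sg (w 1) • _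
    rw [← Matrix.mul_assoc, ← Matrix.mul_assoc, c, Matrix.mul_assoc _ (F.T 1), fr_T_pr (F.sq 1),
      Matrix.mul_smul, Matrix.smul_mul]
  · show F.T 2 * _ = sg (w 2) • _
    rw [← Matrix.mul_assoc, ← Matrix.mul_assoc, c, Matrix.mul_assoc _ (F.T 2), c,
      ← Matrix.mul_assoc, Matrix.mul_assoc _ (F.T 2), fr_T_pr (F.sq 2), Matrix.mul_smul]

theorem e_T (s : Fin 3) (w : Fin 3 → Bool) : F.e w * F.T s = sg (w s) • F.e w := by
  rw [← F.T_e]
  exact (((fr_comm (F.comm s 0) _).mul_right (fr_comm (F.comm s 1) _)).mul_right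
    (fr_comm (F.comm s 2) _)).symm

theorem sum_e : ∑ w, F.e w = 1 := by
  let q : Bool × Bool × Bool ≃ (Fin 3 → Bool) :=
    ⟨fun x => ![x.1, x.2.1, x.2.2], fun w => (w 0, w 1, w 2), fun _ => rfl, fun w => by
      ext i; fin_cases i <;> rfl⟩
  rw [← q.sum_comp]
  show ∑ x : Bool × Bool × Bool, pr (F.T 0) x.1 * pr (F.T 1) x.2.1 * pr (F.T 2) x.2.2 = 1
  simp only [Fintype.sum_prod_type, ← Finset.mul_sum, fr_sum_pr, mul_one]

theorem e_idem (w : Fin 3 → Bool) : F.e w * F.e w = F.e w := by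
  conv_lhs => rhs; unfold e
  rw [← Matrix.mul_assoc, ← Matrix.mul_assoc, fr_mul_pr (F.e_T 0 w), fr_mul_pr (F.e_T 1 w),
    fr_mul_pr (F.e_T 2 w)]

theorem e_al (w : Fin 3 → Bool) : Al (F.e w) := by
  exact ((fr_pr_al (F.al 0) _).mul (fr_pr_al (F.al 1) _)).mul (fr_pr_al (F.al 2) _)

theorem e_E (w : Fin 3 → Bool) : F.e w * D.E.map (Rat.cast : ℚ → ℂ) =
    D.E.map (Rat.cast : ℚ → ℂ) * (F.e fun s => !w s)ᵀ := by
  have c : ∀ s t b b', Commute (pr (F.T s) b) (pr (F.T t) b') := fun s t b b' =>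
    fr_comm (fr_comm (F.comm t s) b).symm b'
  unfold e
  rw [Matrix.mul_assoc, fr_pr_E (F.skew 2), ← Matrix.mul_assoc, Matrix.mul_assoc _ (pr (F.T 1) _),
    fr_pr_E (F.skew 1), ← Matrix.mul_assoc, fr_pr_E (F.skew 0), Matrix.mul_assoc, Matrix.mul_assoc,
    ← transpose_mul, ← transpose_mul, (c 2 1 _ _).eq,
    ((c 1 0 _ _).mul_left (c 2 0 _ _)).eq, Matrix.mul_assoc]

/-- For algebraic `Y` the matrix `e w * Y * e w` commutes with the `T s`.  If `e w ≠ 0` fix a
nonzero entry `1 / p w` of `P⁻¹ * e w`.  The rank one matrices `vecMulVec (column of e w) (row of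
e w)` are of this form, which shows that `(1 / p w) • (e w * P)` and then `p w • (P⁻¹ * e w)` are
algebraic. -/
theorem exists_p₀ (w : Fin 3 → Bool) : ∃ p : ℂ, p ≠ 0 ∧ Al (p • (D.P⁻¹ * F.e w)) ∧
    Al (p⁻¹ • (F.e w * D.P)) := by
  by_cases h0 : F.e w = 0
  · refine ⟨1, one_ne_zero, ?_, ?_⟩ <;> intro i j <;> simp [h0, isAlgebraic_zero]
  have hP : IsUnit D.P.det := isUnit_iff_ne_zero.2 D.P_det
  have key : ∀ i k l j, IsAlgebraic ℚ ((D.P⁻¹ * F.e w) i k * (F.e w * D.P) l j) := by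
    intro i k l j
    have h := F.H (F.e w * (single k l 1 : Matrix n n ℂ) * F.e w)
      (((F.e_al w).mul (fr_single_al k l)).mul (F.e_al w)) (fun s => by
        rw [Matrix.mul_assoc _ (F.e w), F.e_T, ← Matrix.mul_assoc, ← Matrix.mul_assoc, F.T_e,
          Matrix.mul_smul, Matrix.smul_mul, Matrix.smul_mul]) i j
    rwa [← Matrix.mul_assoc, ← Matrix.mul_assoc, Matrix.mul_assoc _ (F.e w) D.P, fr_single] at h
  obtain ⟨i, k, hA⟩ := fr_ne (M := D.P⁻¹ * F.e w) fun h => h0 (by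
    rw [← Matrix.one_mul (F.e w), ← mul_nonsing_inv _ hP, Matrix.mul_assoc, h, Matrix.mul_zero])
  obtain ⟨l, j, hB⟩ := fr_ne (M := F.e w * D.P) fun h => h0 (by
    rw [← Matrix.mul_one (F.e w), ← mul_nonsing_inv _ hP, ← Matrix.mul_assoc, h, Matrix.zero_mul])
  refine ⟨((D.P⁻¹ * F.e w) i k)⁻¹, inv_ne_zero hA, fun i' k' => ?_, fun l' j' => ?_⟩
  · have h := (key i' k' l j).mul (key i k l j).inv
    rw [mul_inv, mul_mul_mul_comm, mul_inv_cancel₀ hB, mul_one, mul_comm] at h
    exact h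
  · rw [inv_inv, Matrix.smul_apply, smul_eq_mul]
    exact key i k l' j'

/-- `c E = P G Pᵀ` with `G` algebraic, so `c • (e w * E * (e w')ᵀ) = (e w * P) G (e w' * P)ᵀ` is
`p w * p w'` times an algebraic matrix; for the opposite weight `w'` the left side is
`c • (e w * E) ≠ 0` (`e_E`, `e_idem`). -/
theorem exists_p : ∃ p : (Fin 3 → Bool) → ℂ, (∀ w, p w ≠ 0) ∧
    (∀ w w' Y, Al Y → Al ((p w / p w') • (D.P⁻¹ * (F.e w * Y * F.e w') * D.P))) ∧
    ∀ w, F.e w ≠ 0 → F.e (fun s => !w s) ≠ 0 ∧ IsAlgebraic ℚ (p w * p (fun s => !w s) / D.c) := by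
  choose p p0 p1 p2 using F.exists_p₀
  have hP : IsUnit D.P.det := isUnit_iff_ne_zero.2 D.P_det
  refine ⟨p, p0, fun w w' Y hY => ?_, fun w hw => ?_⟩
  · have h := ((p1 w).mul hY).mul (p2 w')
    rw [Matrix.smul_mul, Matrix.smul_mul, Matrix.mul_smul, smul_smul, ← div_eq_mul_inv] at h
    simpa only [Matrix.mul_assoc] using h
  · have hE : IsUnit (D.E.map (Rat.cast : ℚ → ℂ)).det := by
      have := (algebraMap ℚ ℂ).map_det D.E
      rw [isUnit_iff_ne_zero]
      intro h
      refine D.E_det ((algebraMap ℚ ℂ).injective ?_)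
      rw [this, map_zero]
      exact h
    have hne : F.e w * D.E.map (Rat.cast : ℚ → ℂ) ≠ 0 := fun h => hw (by
      rw [← Matrix.mul_one (F.e w), ← mul_nonsing_inv _ hE, ← Matrix.mul_assoc, h, Matrix.zero_mul])
    refine ⟨fun h => hne (by rw [F.e_E, h, transpose_zero, Matrix.mul_zero]), ?_⟩
    obtain ⟨i, j, hx⟩ := fr_ne hne
    have hZ := ((p2 w).mul D.H2).mul (p2 fun s => !w s).transpose
    have e1 : D.P⁻¹ᵀ * D.Pᵀ = 1 := by rw [← transpose_mul, mul_nonsing_inv _ hP, transpose_one]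
    have e2 : (p w)⁻¹ • (F.e w * D.P) * (D.P⁻¹ * (D.c • D.E.map (Rat.cast : ℚ → ℂ)) * D.P⁻¹ᵀ) *
        ((p fun s => !w s)⁻¹ • (F.e (fun s => !w s) * D.P))ᵀ =
        (p w * p (fun s => !w s) / D.c)⁻¹ • (F.e w * D.E.map (Rat.cast : ℚ → ℂ)) := by
      rw [transpose_smul, transpose_mul, Matrix.smul_mul, Matrix.smul_mul, Matrix.mul_smul,
        Matrix.mul_smul, Matrix.smul_mul, Matrix.mul_smul, Matrix.smul_mul, smul_smul, smul_smul]
      congr 1
      · have := p0 w
        have := p0 fun s => !w s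
        have := D.c_ne
        field_simp
      · simp only [Matrix.mul_assoc]
        rw [← Matrix.mul_assoc D.P⁻¹ᵀ, e1, Matrix.one_mul, ← Matrix.mul_assoc D.P,
          mul_nonsing_inv _ hP, Matrix.one_mul, ← F.e_E, ← Matrix.mul_assoc, F.e_idem]
    rw [e2] at hZ
    have h := (hZ i j).mul (((F.e_al w).mul (al_rat D.E)) i j).inv
    rw [Matrix.smul_apply, smul_eq_mul, mul_inv_cancel_right₀ hx] at h
    exact IsAlgebraic.inv_iff.1 h

/-- Matrices acting by scalars on the weight spaces. -/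
def Dg (M : Matrix n n ℂ) : Prop := ∀ w, ∃ t : ℂ, F.e w * M = t • F.e w

theorem dg_one : F.Dg 1 := by
  exact fun w => ⟨1, by rw [Matrix.mul_one, one_smul]⟩

theorem Dg.mul {F : Fr D} {M M' : Matrix n n ℂ} (h : F.Dg M) (h' : F.Dg M') : F.Dg (M * M') := by
  intro w
  obtain ⟨t, ht⟩ := h w
  obtain ⟨t', ht'⟩ := h' w
  exact ⟨t * t', by rw [← Matrix.mul_assoc, ht, Matrix.smul_mul, ht', smul_smul]⟩

theorem fr_zero : F.Dg 0 := fun w => ⟨0, by rw [Matrix.mul_zero, zero_smul]⟩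

theorem fr_add {F : Fr D} {M M' : Matrix n n ℂ} (h : F.Dg M) (h' : F.Dg M') : F.Dg (M + M') := by
  intro w
  obtain ⟨t, ht⟩ := h w
  obtain ⟨t', ht'⟩ := h' w
  exact ⟨t + t', by rw [Matrix.mul_add, ht, ht', add_smul]⟩

theorem fr_smul {F : Fr D} {M : Matrix n n ℂ} (a : ℂ) (h : F.Dg M) : F.Dg (a • M) := by
  intro w
  obtain ⟨t, ht⟩ := h w
  exact ⟨a * t, by rw [Matrix.mul_smul, ht, smul_smul]⟩

theorem dg_span {M : Matrix n n ℂ} (h : M ∈ Submodule.span ℂ (Set.range F.T)) : F.Dg M := by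
  induction h using Submodule.span_induction with
  | mem x hx =>
    obtain ⟨s, rfl⟩ := hx
    exact fun w => ⟨_, F.e_T s w⟩
  | zero => exact F.fr_zero
  | add x y _ _ hx hy => exact fr_add hx hy
  | smul a x _ hx => exact fr_smul a hx

/-- A rational vector outside the finitely many proper subspaces `ker (e w)`, `e w ≠ 0`
(`Submodule.exists_forall_notMem_of_forall_ne_top` or `Subspace.biUnion_ne_univ_of_top_notMem`);
a diagonal matrix killing it vanishes (`sum_e`). -/
theorem exists_vec : ∃ v : n → ℚ, ∀ {ι : Type} [Fintype ι] (M : ι → Matrix n n ℚ),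
    LinearIndependent ℚ M → (∀ i, F.Dg ((M i).map (Rat.cast : ℚ → ℂ))) →
      LinearIndependent ℚ fun i => M i *ᵥ v := by
  let K : {w // F.e w ≠ 0} → Submodule ℚ (n → ℚ) := fun w =>
    { carrier := {v | F.e w.1 *ᵥ (fun i => (v i : ℂ)) = 0}
      add_mem' := fun {u v} hu hv => by
        have : (fun i => ((u + v) i : ℂ)) = (fun i => (u i : ℂ)) + fun i => (v i : ℂ) := by
          ext i; simp
        rw [Set.mem_ofPred_eq, this, mulVec_add, hu, hv, add_zero]
      zero_mem' := by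
        have : (fun i => ((0 : n → ℚ) i : ℂ)) = 0 := by ext i; simp
        rw [Set.mem_ofPred_eq, this, mulVec_zero]
      smul_mem' := fun c v hv => by
        have : (fun i => ((c • v) i : ℂ)) = (c : ℂ) • fun i => (v i : ℂ) := by
          ext i; simp
        rw [Set.mem_ofPred_eq, this, mulVec_smul, hv, smul_zero] }
  obtain ⟨v, hv⟩ := Submodule.exists_forall_notMem_of_forall_ne_top K fun w hw => by
    obtain ⟨i, j, hij⟩ := fr_ne w.2
    have h : F.e w.1 *ᵥ (fun i => ((Pi.single j 1 : n → ℚ) i : ℂ)) = 0 :=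
      (hw ▸ Submodule.mem_top : (Pi.single j 1 : n → ℚ) ∈ K w)
    have e1 : (fun i => ((Pi.single j 1 : n → ℚ) i : ℂ)) = Pi.single j 1 := by
      ext k
      by_cases hk : k = j
      · subst hk; simp
      · simp [hk]
    rw [e1, mulVec_single_one] at h
    exact hij (congrFun h i)
  refine ⟨v, fun {ι} _ M hM hD => Fintype.linearIndependent_iff.2 fun g hg => ?_⟩
  refine Fintype.linearIndependent_iff.1 hM g ?_
  have e0 : (∑ i, g i • M i) *ᵥ v = 0 := by
    rw [← hg, sum_mulVec]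
    exact Finset.sum_congr rfl fun i _ => smul_mulVec _ _ _
  have e1 : (∑ i, g i • M i).map (Rat.cast : ℚ → ℂ) =
      ∑ i, (g i : ℂ) • (M i).map (Rat.cast : ℚ → ℂ) := by
    ext a b
    simp [Matrix.sum_apply]
  have hd : F.Dg ((∑ i, g i • M i).map (Rat.cast : ℚ → ℂ)) := by
    rw [e1]
    exact Finset.sum_induction _ _ (fun _ _ => fr_add) F.fr_zero fun i _ => fr_smul _ (hD i)
  generalize ∑ i, g i • M i = N at e0 hd
  have e2 : N.map (Rat.cast : ℚ → ℂ) *ᵥ (fun i => (v i : ℂ)) = 0 := by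
    ext a
    have := congrArg (Rat.cast : ℚ → ℂ) (congrFun e0 a)
    simpa [mulVec, dotProduct] using this
  have e3 : ∀ w, F.e w * N.map (Rat.cast : ℚ → ℂ) = 0 := fun w => by
    by_cases h0 : F.e w = 0
    · rw [h0, Matrix.zero_mul]
    obtain ⟨t, ht⟩ := hd w
    have h : t • (F.e w *ᵥ fun i => (v i : ℂ)) = 0 := by
      rw [← smul_mulVec, ← ht, ← mulVec_mulVec, e2, mulVec_zero]
    rcases smul_eq_zero.1 h with h | h
    · rw [ht, h, zero_smul]
    · exact absurd h (hv ⟨w, h0⟩)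
  have e4 : N.map (Rat.cast : ℚ → ℂ) = 0 := by
    rw [← Matrix.one_mul (N.map _), ← F.sum_e, Finset.sum_mul]
    exact Finset.sum_eq_zero fun w _ => e3 w
  ext a b
  have := congrFun (congrFun e4 a) b
  simpa using this

end Fr

end GPC73

end

section

/-! The upper bounds. -/

open Matrix Module Complex

namespace GPC73

variable {n : Type} [Fintype n] [DecidableEq n] {D : HD n}

theorem up_rat (K : IntermediateField ℚ ℂ) {z : ℂ} (h : IsAlgebraic ℚ z) :
    z ∈ algebraicClosure K ℂ :=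
  mem_algebraicClosure_iff.2 (h.tower_top K)

theorem up_adj {x y z : ℂ} (h : z = x ∨ z = y) :
    z ∈ algebraicClosure (IntermediateField.adjoin ℚ {x, y}) ℂ := by
  have hz : z ∈ IntermediateField.adjoin ℚ {x, y} :=
    IntermediateField.subset_adjoin ℚ _ (by simpa using h)
  exact (algebraicClosure (IntermediateField.adjoin ℚ {x, y}) ℂ).algebraMap_mem ⟨z, hz⟩

omit [Fintype n] [DecidableEq n] in
theorem up_sg {a b : Bool} {M : Matrix n n ℂ} (hM : M ≠ 0) (h : sg a • M = sg b • M) : a = b := by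
  have h1 : sg a = sg b := smul_left_injective ℂ hM h
  have h2 : (I : ℂ) ≠ -I := fun h => by
    have := congrArg Complex.im h
    norm_num at this
  cases a <;> cases b
  · rfl
  · exact absurd h1.symm h2
  · exact absurd h1 h2
  · rfl

omit [DecidableEq n] in
theorem up_ne {A B C : Matrix n n ℂ} (h : A * B * C ≠ 0) : A ≠ 0 ∧ C ≠ 0 :=
  ⟨fun h0 => h (by rw [h0, Matrix.zero_mul, Matrix.zero_mul]),
    fun h0 => h (by rw [h0, Matrix.mul_zero])⟩

namespace Fr

variable (F : Fr D)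

/-- `P⁻¹ Y P = ∑ w, ∑ w', P⁻¹ (e w * Y * e w') P`. -/
theorem up_of {p : (Fin 3 → Bool) → ℂ} (hp : ∀ w, p w ≠ 0)
    (h : ∀ w w' Y, Al Y → Al ((p w / p w') • (D.P⁻¹ * (F.e w * Y * F.e w') * D.P)))
    (K : IntermediateField ℚ ℂ) {Y : Matrix n n ℂ} (hY : Al Y)
    (hK : ∀ w w', F.e w * Y * F.e w' ≠ 0 → IsAlgebraic K (p w' / p w)) (i j : n) :
    IsAlgebraic K ((D.P⁻¹ * Y * D.P) i j) := by
  have e : D.P⁻¹ * Y * D.P = ∑ w, ∑ w', D.P⁻¹ * (F.e w * Y * F.e w') * D.P := by
    simp only [← Finset.sum_mul, ← Finset.mul_sum, F.sum_e, Matrix.one_mul, Matrix.mul_one]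
  rw [e, ← mem_algebraicClosure_iff]
  simp only [Matrix.sum_apply]
  refine sum_mem fun w _ => sum_mem fun w' _ => ?_
  by_cases h0 : F.e w * Y * F.e w' = 0
  · rw [h0, Matrix.mul_zero, Matrix.zero_mul]
    exact zero_mem _
  · have h1 := mul_mem (mem_algebraicClosure_iff.2 (hK w w' h0)) (up_rat K (h w w' Y hY i j))
    rwa [Matrix.smul_apply, smul_eq_mul, ← mul_assoc, div_mul_div_comm, mul_comm (p w'),
      div_self (mul_ne_zero (hp w) (hp w')), one_mul] at h1

/-- Only weights with `w 2 = w 0` occur.  With `x = p ![t, t, t] ^ 2 / c`,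
`y = p ![t, f, t] ^ 2 / c` every `p w ^ 2 / c`, `e w ≠ 0`, is algebraic over `ℚ(x, y)`. -/
theorem up_two (h : F.T 2 = F.T 0) : ∃ x y : ℂ, ∀ Y : Matrix n n ℂ, Al Y → ∀ i j,
    IsAlgebraic (IntermediateField.adjoin ℚ {x, y}) ((D.P⁻¹ * Y * D.P) i j) := by
  obtain ⟨p, hp, h1, h2⟩ := F.exists_p
  refine ⟨p ![true, true, true] ^ 2 / D.c, p ![true, false, true] ^ 2 / D.c, fun Y hY i j =>
    F.up_of hp h1 _ hY (fun w w' h0 => ?_) i j⟩
  set K := IntermediateField.adjoin ℚ
    {p ![true, true, true] ^ 2 / D.c, p ![true, false, true] ^ 2 / D.c} with hK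
  have hw : ∀ w, F.e w ≠ 0 → w 2 = w 0 := fun w hw =>
    up_sg hw (by rw [← F.T_e, ← F.T_e, h])
  have ht : ∀ w, F.e w ≠ 0 → w 0 = true → p w ^ 2 / D.c ∈ algebraicClosure K ℂ := by
    intro w h3 h4
    have h5 := (hw w h3).trans h4
    refine up_adj ?_
    cases h6 : w 1
    · right
      congr 3
      funext s
      fin_cases s <;> simp [h4, h5, h6]
    · left
      congr 3
      funext s
      fin_cases s <;> simp [h4, h5, h6]
  have hq : ∀ w, F.e w ≠ 0 → p w ^ 2 / D.c ∈ algebraicClosure K ℂ := by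
    intro w h3
    cases h4 : w 0
    · obtain ⟨h5, h6⟩ := h2 w h3
      have h7 := div_mem (pow_mem (up_rat K h6) 2) (ht _ h5 (by simp [h4]))
      have h8 := hp fun s => !w s
      have h9 := D.c_ne
      convert h7 using 1
      field_simp
    · exact ht w h3 h4
  obtain ⟨h3, h4⟩ := up_ne h0
  have h5 := div_mem (hq w' h4) (hq w h3)
  rw [div_div_div_cancel_right₀ D.c_ne, ← div_pow] at h5
  exact IsAlgebraic.of_pow two_pos (mem_algebraicClosure_iff.1 h5)

/-- `e w * Y * e w' = 0` unless `w 2 = w' 2`.  Let `w₁`, `w₂`, `w₃` be the other three weights with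
`w 2 = true`, `x = p w₂ / p w₁`, `y = p w₃ / p w₁`; for `w 2 = false` pass to the opposite weights. -/
theorem up_three {w₀ : Fin 3 → Bool} (h : w₀ 2 = true) (h0 : F.e w₀ = 0) :
    ∃ x y : ℂ, ∀ Y : Matrix n n ℂ, Al Y →
    Y * F.T 2 = F.T 2 * Y → ∀ i j,
      IsAlgebraic (IntermediateField.adjoin ℚ {x, y}) ((D.P⁻¹ * Y * D.P) i j) := by
  obtain ⟨p, hp, h1, h2⟩ := F.exists_p
  refine ⟨p ![w₀ 0, !w₀ 1, true] / p ![!w₀ 0, w₀ 1, true],
    p ![!w₀ 0, !w₀ 1, true] / p ![!w₀ 0, w₀ 1, true], fun Y hY hc i j =>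
    F.up_of hp h1 _ hY (fun w w' h3 => ?_) i j⟩
  set K := IntermediateField.adjoin ℚ {p ![w₀ 0, !w₀ 1, true] / p ![!w₀ 0, w₀ 1, true],
    p ![!w₀ 0, !w₀ 1, true] / p ![!w₀ 0, w₀ 1, true]} with hK
  have ht : ∀ w, F.e w ≠ 0 → w 2 = true →
      p w / p ![!w₀ 0, w₀ 1, true] ∈ algebraicClosure K ℂ := by
    intro w h4 h5
    by_cases a0 : w 0 = w₀ 0 <;> by_cases a1 : w 1 = w₀ 1
    · refine absurd ?_ h4
      rw [← h0]
      congr 1
      funext s
      fin_cases s <;> simp [a0, a1, h5, h]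
    · refine up_adj (Or.inl ?_)
      congr 2
      funext s
      fin_cases s <;> simp [a0, h5, Bool.eq_not.2 a1]
    · have : w = ![!w₀ 0, w₀ 1, true] := by
        funext s
        fin_cases s <;> simp [a1, h5, Bool.eq_not.2 a0]
      rw [this, div_self (hp _)]
      exact one_mem _
    · refine up_adj (Or.inr ?_)
      congr 2
      funext s
      fin_cases s <;> simp [h5, Bool.eq_not.2 a0, Bool.eq_not.2 a1]
  have hw : w 2 = w' 2 := by
    refine up_sg h3 ?_
    rw [← Matrix.smul_mul, ← Matrix.smul_mul, ← F.e_T, ← Matrix.mul_smul, ← F.T_e,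
      Matrix.mul_assoc (F.e w) (F.T 2), ← hc]
    simp only [Matrix.mul_assoc]
  obtain ⟨h4, h5⟩ := up_ne h3
  rw [← mem_algebraicClosure_iff]
  cases h6 : w 2
  · obtain ⟨k1, k2⟩ := h2 w h4
    obtain ⟨k3, k4⟩ := h2 w' h5
    have k5 := mul_mem (div_mem (up_rat K k4) (up_rat K k2))
      (div_mem (ht _ k1 (by simp [h6])) (ht _ k3 (by simp [← hw, h6])))
    have k6 := hp fun s => !w s
    have k7 := hp fun s => !w' s
    have k8 := hp ![!w₀ 0, w₀ 1, true]
    have k9 := hp w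
    have k10 := D.c_ne
    convert k5 using 1
    field_simp
  · have k := div_mem (ht w' h5 (hw ▸ h6)) (ht w h4 h6)
    rwa [div_div_div_cancel_right₀ (hp _)] at k

end Fr

end GPC73

end
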