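import Pool.Agent.MP_57341d_ag.H73.Defs

/-! The Lie algebra of the Hodge group and the fields of periods of endomorphism motives. -/

open Matrix

namespace GPC73

/-- The smallest Lie algebra of rational matrices whose real span contains `J`. -/
def hull {n : Type} [Fintype n] (J : Matrix n n ℝ) : Submodule ℚ (Matrix n n ℚ) :=
  sInf {L | (∀ X ∈ L, ∀ Y ∈ L, X * Y - Y * X ∈ L) ∧
    J ∈ Submodule.span ℝ ((fun X : Matrix n n ℚ => X.map (Rat.cast : ℚ → ℝ)) '' L)}

namespace AbVar

variable {g N : ℕ} (A : AbVar g N)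

/-- The complex structure in the basis of periods. -/
noncomputable def J : Matrix (Fin (2 * g)) (Fin (2 * g)) ℝ :=
  Matrix.of fun j k => A.ω.repr (Complex.I • A.ω j) k

/-- The field generated by the de Rham matrices of the Betti endomorphisms in `M`. -/
noncomputable def perEnd (M : Set (Matrix (Fin (2 * g)) (Fin (2 * g)) ℚ)) : IntermediateField ℚ ℂ :=
  IntermediateField.adjoin ℚ {c | ∃ P : Matrix (Fin (2 * g)) (Fin (2 * g)) ℂ, P.det ≠ 0 ∧
    (∀ i, Pᵀ i ∈ A.dR) ∧ ∃ Y ∈ M, ∃ i j, c = (P⁻¹ * Y.map (Rat.cast : ℚ → ℂ) * P) i j}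

end AbVar

end GPC73
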